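import Pool.Agent.Lib_helper61.TU.Main
import Pool.Agent.Lib_helper61.TU.Statement

/-!
# Bounds for the number of Tate classes from eigenvalues modulo one prime

Let `p` be a prime, `K` a number field that contains a primitive root of unity `ζ` of order `p ^ a`,
`a > 0`, and let `S` be a finite family of strata: affine spaces with a polynomial `G_i` over the
integers of `K` and an integer coefficient `c_i`. The family has two functions on the finite fields
`F` over a residue field of `K`: the character sum `T(F)` (the sum of `c_i` times the sum over all
points of the `p ^ a`-th power residue symbols of the values of `G_i`) and the number of points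
`N(F)` (the sum of `c_i` times the number of points at which `G_i` does not vanish).

Let `r` be a representation of the absolute Galois group of `K` with open kernel over an
algebraically closed field of characteristic `p`, of dimension `d < p`, with the traces `N(F)`. Then
for every prime `ℓ`, every `ℓ`-adic representation `V` of dimension `d` with the traces `T(F)` and
every element `g` of the Galois group the following holds: a subquotient of `V(j)` on which an open
subgroup of the Galois group acts trivially has dimension at most `e(g)`, the number of eigenvalues
of `r g` that are roots of unity of order `n` with `φ(n) ≤ d`.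

The example: let `f = 0` be a smooth affine plane curve over a number field `K₀` with `s` places at
infinity, of genus `g`, let `K = K₀(ζ)` and `U` the complement of the curve in the plane. The
character sum `T(F)` of `f` is the trace of Frobenius on the part `V = H²_c(U, L_χ)` of the second
cohomology of the surface `z ^ (p ^ a) = f(x, y)` that belongs to a character `χ` of order `p ^ a`,
and `r = H²_c(U, ZMod p)` is an extension of `H¹` of the smooth projective curve by the permutation
representation of the places at infinity modulo the trivial one. By a theorem of Serre, for `p`
large there is a `g` in the Galois group of `K` such that no eigenvalue of `g` on `H¹` of the curve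
modulo `p` is a root of unity of order `n` with `φ(n) ≤ d`. So `V(1)` has at most `s - 1` Tate
classes. The components of the other fibres of `f` give `∑ (n_c - 1)` independent algebraic classes,
where `n_c` is the number of components of `f = c`; if this number is `s - 1`, the Tate conjecture
holds. Examples: `s = 1`; or `f = c + g_1 g_2 ⋯ g_s` for curves `g_i = 0` with one place at infinity.
-/

set_option autoImplicit false

namespace Pool.Agent.Results.MP_97f789_ag.AlmostAllPrimes

open NumberField Pool.Agent.TT Pool.Agent.TB Pool.Agent.TF Pool.Agent.RF Pool.Agent.TU

theorem result {K : Type} [Field K] [NumberField K] [Algebra K Qbar] {p a : ℕ} [Fact p.Prime]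
    {ζ : 𝓞 K} (hζ : IsPrimitiveRoot ζ (p ^ a)) (ha : 0 < a) {s : ℕ} (S : Fin s → Stratum K)
    {k : Type} [Field k] [CharP k p] [IsAlgClosed k] {d : ℕ} (hd : d < p)
    (r : (Qbar ≃ₐ[K] Qbar) →* Matrix (Fin d) (Fin d) k)
    (hr : IsOpen (r.ker : Set (Qbar ≃ₐ[K] Qbar))) (hrT : CardTraces (fun σ => (r σ).trace) S)
    {ℓ : ℕ} [Fact ℓ.Prime] (il : K →+* PadicAlgCl ℓ)
    {V : Type} [AddCommGroup V] [Module (PadicAlgCl ℓ) V] [Module.Finite (PadicAlgCl ℓ) V]
    (hV : Module.finrank (PadicAlgCl ℓ) V = d)
    (π : Representation (PadicAlgCl ℓ) (Qbar ≃ₐ[K] Qbar) V)
    (hπ : SumTraces (fun σ => LinearMap.trace (PadicAlgCl ℓ) V (π σ)) il (p ^ a) ζ S) (j : ℕ)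
    (g : Qbar ≃ₐ[K] Qbar) : TateClassesLE π j (smallEig (r g)) :=
  fun H hH W₁ W₂ _ hTate => tw_main hζ ha S hd r hr hrT il hV π hπ j H hH W₁ W₂ hTate g

end Pool.Agent.Results.MP_97f789_ag.AlmostAllPrimes
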