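import Pool.Agent.Lib_helper61.TP.Main

/-!
# The Tate conjecture in codimension one for cyclic covers branched along lines and graphs

Let `K` be a number field containing a primitive `m`-th root of unity `ζ`. On the weighted plane
`P(1,1,k)` with coordinates `x, w, y` consider linear forms `f_i(x, w)` and graphs
`h_j = e_j y - g_j(x, w)`, where the `g_j` are arbitrary forms of degree `k`. Let `a_i`, `b_j` be
integers, not divisible by `m`, such that for some `u` prime to `m` the remainders modulo `m`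
satisfy `∑ (u a_i mod m) + k ∑ (u b_j mod m) = m`. Then no `ℓ`-adic representation `V` of the Galois
group of `K` whose Frobenius traces are the character sums of `∏ f_i ^ (a_i) ∏ h_j ^ (b_j)` (that
is, `V` is the second cohomology group with compact supports of the complement of the curves, with
coefficients in the local system of the character, or the corresponding eigenspace of the
cohomology of the cyclic cover `z ^ m = ∏ f_i ^ (a_i) ∏ h_j ^ (b_j)`) has Tate classes: no open
subgroup acts trivially on a nonzero subquotient of `V(1)`.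
-/

set_option autoImplicit false

namespace Pool.Agent.Lib_helper61.Superseded.CyclicCovers97

open NumberField Pool.Agent.TT Pool.Agent.TP

theorem result {K : Type} [Field K] [NumberField K] [Algebra K Qbar] {m : ℕ} (hm : 2 ≤ m)
    {ζ : 𝓞 K} (hζ : IsPrimitiveRoot ζ m) {v n k : ℕ} (hk : 1 ≤ k)
    (f : Fin v → Fin 2 → 𝓞 K) (a : Fin v → ℕ) (ha : ∀ i, ¬ m ∣ a i)
    (e : Fin n → 𝓞 K) (he : ∀ j, e j ≠ 0) (g : Fin n → Fin (k + 1) → 𝓞 K) (b : Fin n → ℕ)
    (hb : ∀ j, ¬ m ∣ b j) {u : ℕ} (hu : u.Coprime m)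
    (hsum : ∑ i, u * a i % m + k * ∑ j, u * b j % m = m)
    {ℓ : ℕ} [Fact ℓ.Prime] (ι : K →+* PadicAlgCl ℓ)
    {V : Type} [AddCommGroup V] [Module (PadicAlgCl ℓ) V] [FiniteDimensional (PadicAlgCl ℓ) V]
    (ρ : Representation (PadicAlgCl ℓ) (Qbar ≃ₐ[K] Qbar) V)
    (hρ : HasTraces ρ ι m k ζ f a e g b)
    (H : Subgroup (Qbar ≃ₐ[K] Qbar)) (hH : IsOpen (H : Set (Qbar ≃ₐ[K] Qbar)))
    (W₁ W₂ : Submodule (PadicAlgCl ℓ) V) (hW : W₁ ≤ W₂)
    (hT : ∀ σ ∈ H, ∀ x ∈ W₂, cyc ℓ σ • ρ σ x - x ∈ W₁) : W₁ = W₂ :=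
  le_antisymm hW (Pool.Agent.TP.main hm hζ hk f a e g b ha hb he hu ((add_comm _ _).trans hsum)
    ι ρ hρ H hH W₁ W₂ hW hT)

end Pool.Agent.Lib_helper61.Superseded.CyclicCovers97
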