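import Pool.Agent.Lib_helper61.TB.CMain
import Pool.Agent.Lib_helper15.DET.FIN

/-!
# The Tate conjecture in codimension one for cyclic covers branched along conjugate lines

Let `p` be an odd prime and `m > 1` a power of `p`, let `K` be a number field containing a primitive
`m`-th root of unity `ζ`, and let `G` be a form of degree `n + b` in three variables over the
integers of `K` that is the product of a constant, of `x₀ ^ b` and of `n ≥ 4` linear forms `L_i` in
general position that are permuted by the absolute Galois group of `K` through the full symmetric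
group (for example the norm form of `β₀ x₀ + β₁ x₁ + β₂ x₂` for an extension `L` of `K` of degree
`n` with symmetric Galois group), where `m` divides `n + b` and either `b = 0` or `p` does not
divide `n`. Let `V` be the second cohomology group with compact supports of the complement of the
lines, with coefficients in the local system of a character of order `m` of the cyclic cover
`z ^ m = G`. Then `V` has no Tate classes at any prime `ℓ`: no open subgroup of the Galois group
acts trivially on a nonzero subquotient of `V(1)`.

The representations are given by their traces at the Frobenius elements, which are the character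
sums of `G`. The residual representation at `p` is the exterior square of the standard
representation of the symmetric group, hence irreducible; the determinant of `V(1)` at `p` has
infinite order by an estimate of the exponential sums at large split primes; and Tate classes at
`ℓ` would force the eigenvalue one at `p` on an open subgroup.
-/

set_option autoImplicit false

namespace Pool.Agent.Results.MP_97f789_ag.NormForms

open NumberField Pool.Agent.TT Pool.Agent.TB Pool.Agent.TF

theorem result {K : Type} [Field K] [NumberField K] [Algebra K Qbar] {n b : ℕ}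
    (D : SymForm K 2 n b) {p a : ℕ} [Fact p.Prime] (hp2 : p ≠ 2) (ha : a ≠ 0) {ζ : 𝓞 K}
    (hζ : IsPrimitiveRoot ζ (p ^ a)) (hnb : p ^ a ∣ n + b) (hcase : b = 0 ∨ ¬ p ∣ n)
    (hn : 4 ≤ n) (ip : K →+* ℂ_[p]) {d : ℕ}
    (hd : d = if b = 0 then (n - 2).choose 2 else (n - 1).choose 2)
    (ρ : (Qbar ≃ₐ[K] Qbar) →* Matrix (Fin d) (Fin d) ℂ_[p])
    (hρ : Continuous ρ) (hT : HasTraces (fun σ => (ρ σ).trace) ip (p ^ a) ζ D.G)
    {ℓ : ℕ} [Fact ℓ.Prime] (il : K →+* PadicAlgCl ℓ) {V : Type} [AddCommGroup V]
    [Module (PadicAlgCl ℓ) V] [Module.Finite (PadicAlgCl ℓ) V]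
    (π : Representation (PadicAlgCl ℓ) (Qbar ≃ₐ[K] Qbar) V)
    (hπ : HasTraces (fun σ => LinearMap.trace (PadicAlgCl ℓ) V (π σ)) il (p ^ a) ζ D.G)
    (H : Subgroup (Qbar ≃ₐ[K] Qbar)) (hH : IsOpen (H : Set (Qbar ≃ₐ[K] Qbar)))
    (W₁ W₂ : Submodule (PadicAlgCl ℓ) V) (hW : W₁ ≤ W₂)
    (hTate : ∀ σ ∈ H, ∀ x ∈ W₂, cyc ℓ σ • π σ x - x ∈ W₁) : W₁ = W₂ := by
  have hp3 : 3 ≤ p := by
    have h2 := (Fact.out : p.Prime).two_le
    omega
  have hm : 2 < p ^ a := by
    calc 2 < p := by omega
      _ = p ^ 1 := (pow_one p).symm
      _ ≤ p ^ a := Nat.pow_le_pow_right (by omega) (by omega)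
  exact cmain D hp2 ha hζ hnb hcase one_le_two hn ip hd ρ hρ hT (j := 1)
    (Pool.Agent.DET.det_main' D hm ha hζ hnb hcase one_le_two hn ip hd ρ hT (by norm_num))
    il π hπ H hH W₁ W₂ hW (by simpa only [pow_one] using hTate)

end Pool.Agent.Results.MP_97f789_ag.NormForms
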