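import Pool.Agent.Lib_helper61.PSL.Prio

/-!
# MP_5d94c0_lc: p-selective complete sets with a priority function

Let `g` be computable in polynomial time, and let `L` be closed under smaller priorities: if
`g x ≤ g y` in the dictionary order and `y ∈ L`, then `x ∈ L`.  Then `L` is p-selective: of two
strings take the one with the smaller priority.  (Examples: left cuts, `g = id`, and all sets that
are `≤_m^P`-reducible to a left cut.)  The theorem: if such a set is `≤_T^P`-complete for `NP`, then
`PH = P^NP`.  It holds relative to every oracle `O`; the oracle `fun _ => false` gives the classical
statement.

Proof idea.  Let `A` be in `NP^(O ⊕ B)` where `B` is in `P^(O ⊕ L)`.  The largest priority `u` of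
the elements of `L` of length at most `n` is found by binary search with questions of the form
`is there x ∈ L, |x| ≤ n, with v ≤ g x`, which are in `NP^O` and so can be answered with `L`.  From
`u` all questions to `L`, hence all questions to `B`, that occur in the `NP` computation on an input
`x` can be answered without `L`.  So `(x, u) ↦ A(x)` is an `NP^O` predicate, and it is reducible
to `L`, which is complete.  Hence `A` is in `P^(O ⊕ L)`; use induction on the level of the hierarchy.
-/

set_option autoImplicit false

namespace Pool.Agent.Results.MP_5d94c0_lc.PrioritySelectorsCollapsePH

open Pool.Agent.CK Pool.Agent.PSL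

theorem result (O L : Lang) (g : List Bool → List Bool) (hg : InFP O g)
    (hmono : PrioClosed g L) :
    PSelectiveRel O L ∧
    (TuringComplete O L → ∀ (k : ℕ) (A : Lang), SigmaP O k A → TuringReducible O A L) :=
  ⟨prio_sel hg hmono, fun hC => prio_collapse hg hmono hC⟩

end Pool.Agent.Results.MP_5d94c0_lc.PrioritySelectorsCollapsePH
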